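import Pool.Agent.BoltzM.Herm.Macro
import Pool.Agent.BoltzM.Spec.Bg
import Pool.Agent.BoltzM.Gap.PolyAlg

/-!
Velocity cut-off of the collision invariants.
-/

set_option autoImplicit false

open MeasureTheory SchwartzMap Pool.Agent.BoltzM.BoltzC Filter Topology

noncomputable section

namespace Pool.Agent.BoltzM.Corr

variable [Dim]

lemma temperate_dil (ψ : SV) (ε : ℝ) : (fun v : E => ψ (ε • v)).HasTemperateGrowth :=
  ψ.hasTemperateGrowth.comp (ε • ContinuousLinearMap.id ℝ E).hasTemperateGrowth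

/-- Multiplication by `ψ(ε V)`. -/
def mulE (ψ : SV) (ε : ℝ) : SV →L[ℝ] SV := smulLeftCLM ℝ fun v : E => ψ (ε • v)

@[simp] lemma mulE_apply (ψ : SV) (ε : ℝ) (f : SV) (v : E) : mulE ψ ε f v = ψ (ε • v) * f v := by
  simp [mulE, smulLeftCLM_apply_apply (temperate_dil ψ ε)]

lemma ap_mulE (j : Ix) (ψ : SV) (ε : ℝ) (f : SV) :
    ap j (mulE ψ ε f) = mulE ψ ε (ap j f) - ε • mulE (dV j ψ) ε f := by
  ext v
  have h0 : (mulE ψ ε f : E → ℝ) = fun v => ψ (ε • v) * f v := funext (mulE_apply ψ ε f)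
  have h1 := ((ψ.hasFDerivAt (ε • v)).comp v ((hasFDerivAt_id v).const_smul ε)).mul
    (f.hasFDerivAt v)
  rw [ap_apply, h0]
  erw [h1.fderiv]
  simp [ap_apply, dV_apply]
  ring

lemma tendsto_mulE (n : ℕ) : ∀ ψ f : SV,
    Tendsto (fun ε => nA n (mulE ψ ε f - ψ 0 • f)) (𝓝 0) (𝓝 0) := by
  induction n with
  | zero =>
    intro ψ f
    simp only [nA_zero, ip_self_eq]
    have hc := ψ.continuous
    have hf := f.continuous
    have h := tendsto_integral_filter_of_dominated_convergence (μ := (volume : Measure E))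
      (l := 𝓝 (0 : ℝ)) (F := fun ε v => ((ψ (ε • v) - ψ 0) * f v) ^ 2) (f := fun _ => (0 : ℝ))
      (fun v => (2 * SchwartzMap.seminorm ℝ 0 0 ψ) ^ 2 * f v ^ 2)
      (Eventually.of_forall fun ε => Continuous.aestronglyMeasurable (by fun_prop))
      (Eventually.of_forall fun ε => ae_of_all _ fun v => ?_)
      ((f.memLp 2 volume).integrable_sq.const_mul _) (ae_of_all _ fun v => ?_)
    · simp only [integral_zero] at h
      convert h using 3 with ε
      funext v
      simp [sub_mul]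
    · rw [Real.norm_of_nonneg (sq_nonneg _), mul_pow, ← sq_abs (ψ (ε • v) - ψ 0)]
      gcongr
      have h1 := ψ.norm_le_seminorm ℝ (ε • v)
      have h2 := ψ.norm_le_seminorm ℝ 0
      rw [Real.norm_eq_abs] at h1 h2
      linarith [abs_sub (ψ (ε • v)) (ψ 0)]
    · have : Tendsto (fun ε : ℝ => ((ψ (ε • v) - ψ 0) * f v) ^ 2) (𝓝 0)
          (𝓝 (((ψ ((0 : ℝ) • v) - ψ 0) * f v) ^ 2)) := Continuous.tendsto (by fun_prop) 0
      simpa using this
  | succ n ih =>
    intro ψ f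
    simp only [nA_succ]
    have key : ∀ j, Tendsto (fun ε => nA n (ap j (mulE ψ ε f - ψ 0 • f))) (𝓝 0) (𝓝 0) := by
      intro j
      have hb : ∀ ε, nA n (ap j (mulE ψ ε f - ψ 0 • f)) ≤
          2 * nA n (mulE ψ ε (ap j f) - ψ 0 • ap j f) + 2 * (ε ^ 2 *
            (2 * nA n (mulE (dV j ψ) ε f - dV j ψ 0 • f) + 2 * nA n (dV j ψ 0 • f))) := by
        intro ε
        have e1 : ap j (mulE ψ ε f - ψ 0 • f) =
            (mulE ψ ε (ap j f) - ψ 0 • ap j f) - ε • mulE (dV j ψ) ε f := by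
          rw [map_sub, map_smul, ap_mulE]; abel
        rw [e1]
        refine (nA_sub_le _ _ _).trans ?_
        rw [nA_smul]
        gcongr
        have := nA_add_le n (mulE (dV j ψ) ε f - dV j ψ 0 • f) (dV j ψ 0 • f)
        rwa [sub_add_cancel] at this
      refine squeeze_zero (fun ε => nA_nonneg _ _) hb ?_
      have h2 : Tendsto (fun ε : ℝ => ε ^ 2) (𝓝 0) (𝓝 0) := by
        simpa using (continuous_pow 2).tendsto (0 : ℝ)
      have := ((ih ψ (ap j f)).const_mul 2).add ((h2.mul (((ih (dV j ψ) f).const_mul 2).add_const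
        (2 * nA n (dV j ψ 0 • f)))).const_mul 2)
      simpa using this
    simpa using tendsto_finsetSum Finset.univ fun j _ => key j

theorem vcut : VCutStmt := by
  intro n ε hε
  have h1 : ∀ᶠ t : ℝ in 𝓝 0, ∀ a, nA n (mulE sqMS t (eH a) - sqMS 0 • eH a) < ε :=
    eventually_all.2 fun a => (tendsto_mulE n sqMS (eH a)).eventually (gt_mem_nhds hε)
  obtain ⟨t, ht, ht0⟩ := ((h1.filter_mono nhdsWithin_le_nhds).and
    (self_mem_nhdsWithin (s := Set.Ioi (0 : ℝ)))).exists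
  have ht0' : 0 < t := ht0
  have hb : ∀ a, ∃ C : ℝ, 0 ≤ C ∧ ∀ V, |mulE sqMS t (eH a) V| ≤ C * sqM V := by
    intro a
    obtain ⟨φ, hφ, h⟩ := exists_PV_of_HP _ (eH_mem a)
    obtain ⟨C, hC, hφ'⟩ := PV_growth φ hφ
    refine ⟨C * ((1 + t⁻¹) ^ 2 * Real.exp (2 ^ 2)), by positivity, fun V => ?_⟩
    have h2 := pow_mul_sqM_le 2 (t • V)
    have h3 : 1 + ‖V‖ ≤ (1 + t⁻¹) * (1 + ‖t • V‖) := by
      rw [norm_smul, Real.norm_of_nonneg ht0'.le]
      have : t⁻¹ * (t * ‖V‖) = ‖V‖ := by field_simp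
      have h4 : 0 ≤ t⁻¹ := by positivity
      have h5 : 0 ≤ t * ‖V‖ := by positivity
      nlinarith
    have h4 := sqM_pos (t • V)
    have h5 := sqM_pos V
    rw [mulE_apply, h, sqMS_apply, abs_mul, abs_mul, abs_of_pos h4, abs_of_pos h5, ← mul_assoc]
    refine mul_le_mul_of_nonneg_right ?_ h5.le
    calc sqM (t • V) * |φ V| ≤ sqM (t • V) * (C * ((1 + t⁻¹) * (1 + ‖t • V‖)) ^ 2) := by
          gcongr
          refine (hφ' V).trans ?_
          gcongr
      _ = C * ((1 + t⁻¹) ^ 2 * ((1 + ‖t • V‖) ^ 2 * sqM (t • V))) := by ring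
      _ ≤ _ := by
          have h6 : (1 + ‖t • V‖) ^ 2 * sqM (t • V) ≤ Real.exp (2 ^ 2) := by exact_mod_cast h2
          gcongr
  choose C hC0 hC using hb
  refine ⟨fun a => mulE sqMS t (eH a), ∑ a, C a + 1,
    add_pos_of_nonneg_of_pos (Finset.sum_nonneg fun a _ => hC0 a) one_pos, fun a => ?_,
    fun a V => (hC a V).trans ?_⟩
  · have := (ht a).le
    rw [sqMS_apply, show sqM 0 = 1 by simp [sqM], one_smul] at this
    rwa [nA_sub_comm]
  · have := Finset.single_le_sum (f := C) (fun a _ => hC0 a) (Finset.mem_univ a)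
    have h5 := sqM_pos V
    gcongr
    linarith

end Pool.Agent.BoltzM.Corr
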